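import Pool.Agent.R253.TI.Bohr

/-!
# Automatic continuity of translation-invariant linear forms on `C_E(𝕋)`
-/

namespace Pool.Agent.Results.MP_eb9c50_an.BohrSidon

open Pool.Agent.R253.TI MeasureTheory AddCircle

noncomputable section

theorem fourierCoeff_continuous (k : ℤ) : Continuous fun f : CT => fourierCoeff f k := by
  rw [Metric.continuous_iff]
  intro f ε hε
  refine ⟨ε, hε, ?_⟩
  intro g hg
  rw [dist_eq_norm] at hg ⊢
  have e : fourierCoeff g k - fourierCoeff f k
      = ∫ t, fourier (-k) t • ((g - f) t) ∂(haarAddCircle (T := 1)) := by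
    unfold fourierCoeff
    rw [← integral_sub ((integrable_CT g).fourier_smul _) ((integrable_CT f).fourier_smul _)]
    congr 1
    ext t
    rw [ContinuousMap.sub_apply, smul_sub]
  rw [e]
  refine lt_of_le_of_lt ?_ hg
  have := norm_integral_le_of_norm_le_const (μ := haarAddCircle (T := 1))
    (f := fun t => fourier (-k) t • ((g - f) t)) (C := ‖g - f‖)
    (ae_of_all _ fun t => by
      rw [norm_smul, fourier_apply, Circle.norm_coe, one_mul]
      exact ContinuousMap.norm_coe_le_norm (g - f) t)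
  simpa using this

theorem autoCont_of_sidon (E : Set ℤ) (q : ℕ) (hq : 1 ≤ q)
    (hS : IsSidon {k | k ∈ E ∧ (q : ℤ) ∣ k}) : AutoCont E := by
  intro Φ hΦ
  have hval : ∀ f : CE E, Φ f = fourierCoeff (f : CT) 0 * cst Φ := by
    intro f
    have hmS := mu_mem (q := q) hq f.2
    have hSE : {k | k ∈ E ∧ (q : ℤ) ∣ k} ⊆ E := fun k hk => hk.1
    have hmE : mu q f ∈ CE E := CE_mono hSE hmS
    rw [← tilf_mu hq hΦ f hmE, sidon_tilf hSE hS hΦ ⟨mu q f, hmE⟩ hmS]
    simp only []
    rw [fourierCoeff_mu hq, if_pos (dvd_zero _)]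
  have : (Φ : CE E → ℂ) = fun f : CE E => fourierCoeff (f : CT) 0 * cst Φ := funext hval
  rw [this]
  exact ((fourierCoeff_continuous 0).comp continuous_subtype_val).mul continuous_const

theorem isSidon_mono {S S' : Set ℤ} (h : S' ⊆ S) (hS : IsSidon S) : IsSidon S' :=
  fun f => hS ⟨f, CE_mono h f.2⟩

theorem isSidon_empty : IsSidon ∅ := by
  intro f
  have : (fun k : ℤ => ‖fourierCoeff (f : CT) k‖) = fun _ => 0 := by
    funext k
    rw [f.2 k (by simp), norm_zero]
  rw [this]
  exact summable_zero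

theorem classification (P S : Set ℤ) (q : ℕ) (hq : 1 ≤ q) (hP : ∀ k : ℤ, k ∈ P ↔ k + q ∈ P)
    (hS : IsSidon S) : AutoCont (P ∪ S) ↔ (0 : ℤ) ∉ P := by
  have hmul : ∀ (n : ℕ) (k : ℤ), k ∈ P ↔ k + q * n ∈ P := by
    intro n
    induction n with
    | zero => intro k; simp
    | succ n ih =>
      intro k
      rw [ih k, hP (k + q * n)]
      push_cast
      rw [show k + (q : ℤ) * n + q = k + q * (n + 1) by ring]
  constructor
  · intro hA h0
    refine not_autoCont (E := P ∪ S) ?_ hA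
    intro m
    refine ⟨q, by omega, ?_⟩
    intro k _ _
    left
    have := (hmul k 0).1 h0
    simpa using this
  · intro h0
    apply autoCont_of_sidon _ q hq
    apply isSidon_mono _ hS
    rintro k ⟨hk, n, rfl⟩
    rcases hk with hk | hk
    · exfalso
      apply h0
      rcases le_total 0 n with hn | hn
      · obtain ⟨m, rfl⟩ := Int.eq_ofNat_of_zero_le hn
        have := (hmul m 0).2 (by simpa using hk)
        exact this
      · obtain ⟨m, hm⟩ := Int.eq_ofNat_of_zero_le (neg_nonneg.2 hn)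
        have h1 := (hmul m (q * n)).1 hk
        rw [← hm] at h1
        rwa [show (q : ℤ) * n + q * -n = 0 by ring] at h1
    · exact hk

theorem sidon_univ_of_odd (h : IsSidon {k : ℤ | Odd k}) : IsSidon Set.univ := by
  intro f
  set g : CT := ⟨fun t => fourier 1 t * (f : CT) ((2 : ℤ) • t), by fun_prop⟩ with hg
  have hgt : ∀ t, g t = fourier 1 t * (f : CT) ((2 : ℤ) • t) := fun t => rfl
  have hcoef : ∀ k : ℤ, fourierCoeff g k
      = ∫ t, fourier (1 - k) t * (f : CT) ((2 : ℤ) • t) ∂(haarAddCircle (T := 1)) := by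
    intro k
    unfold fourierCoeff
    congr 1
    ext t
    rw [hgt, smul_eq_mul, ← mul_assoc, ← fourier_add]
    congr 2
    ring_nf
  have hodd : ∀ l : ℤ, fourierCoeff g (2 * l + 1) = fourierCoeff (f : CT) l := by
    intro l
    rw [hcoef]
    have e : ∀ t : UnitAddCircle, fourier (1 - (2 * l + 1)) t * (f : CT) ((2 : ℤ) • t)
        = (fun s : UnitAddCircle => fourier (-l) s • (f : CT) s) ((2 : ℤ) • t) := by
      intro t
      simp only [smul_eq_mul]
      congr 1
      rw [fourier_apply, fourier_apply, smul_smul]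
      congr 3
      ring
    simp_rw [e]
    have h2 := mp_zsmul (n := 2) (by norm_num)
    have hmeas : AEStronglyMeasurable (fun s : UnitAddCircle => fourier (-l) s • (f : CT) s)
        (haarAddCircle (T := 1)) := by
      apply Continuous.aestronglyMeasurable
      fun_prop
    have h3 := integral_map h2.measurable.aemeasurable
      (f := fun s : UnitAddCircle => fourier (-l) s • (f : CT) s) (by rw [h2.map_eq]; exact hmeas)
    rw [h2.map_eq] at h3
    rw [← h3]
    rfl
  have heven : ∀ k : ℤ, ¬ Odd k → fourierCoeff g k = 0 := by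
    intro k hk
    rw [hcoef]
    set F : UnitAddCircle → ℂ := fun t => fourier (1 - k) t * (f : CT) ((2 : ℤ) • t) with hF
    have hne : (1 - k : ℤ) ≠ 0 := by
      intro h0
      apply hk
      have : k = 1 := by omega
      rw [this]
      exact odd_one
    have hshift : ∀ t, F (t + ((1 / 2 : ℝ) : UnitAddCircle)) = - F t := by
      intro t
      simp only [hF]
      have h1 : (2 : ℤ) • (t + ((1 / 2 : ℝ) : UnitAddCircle)) = (2 : ℤ) • t := by
        rw [smul_add]
        have : (2 : ℤ) • ((1 / 2 : ℝ) : UnitAddCircle) = 0 := by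
          rw [← AddCircle.coe_zsmul, AddCircle.coe_eq_zero_iff]
          exact ⟨1, by norm_num⟩
        rw [this, add_zero]
      rw [h1]
      obtain ⟨l, hl⟩ : ∃ l : ℤ, 1 - k = 2 * l + 1 := by
        rw [Int.not_odd_iff_even] at hk
        obtain ⟨r, hr⟩ := hk
        exact ⟨-r, by omega⟩
      have h2 : fourier (T := 1) (1 - k) (t + ((1 / 2 : ℝ) : UnitAddCircle))
          = - fourier (T := 1) (1 - k) t := by
        rw [fourier_add_apply]
        have h3 : fourier (T := 1) (1 - k) ((1 / 2 : ℝ) : UnitAddCircle) = -1 := by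
          rw [fourier_coe_apply, hl]
          have : (2 * Real.pi * Complex.I * ((2 * l + 1 : ℤ) : ℂ) * ((1 / 2 : ℝ) : ℂ) / ((1 : ℝ) : ℂ))
              = (l : ℂ) * (2 * Real.pi * Complex.I) + Real.pi * Complex.I := by
            push_cast
            ring
          rw [this, Complex.exp_add, Complex.exp_int_mul_two_pi_mul_I, one_mul, Complex.exp_pi_mul_I]
        rw [h3]
        ring
      rw [h2]
      ring
    have h4 := integral_add_right_eq_self (μ := haarAddCircle (T := 1)) F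
      ((1 / 2 : ℝ) : UnitAddCircle)
    simp_rw [hshift] at h4
    rw [integral_neg] at h4
    have h5 : (2 : ℂ) * ∫ t, F t ∂(haarAddCircle (T := 1)) = 0 := by linear_combination -h4
    simpa using h5
  have hgE : g ∈ CE {k : ℤ | Odd k} := fun k hk => heven k hk
  have hsum := h ⟨g, hgE⟩
  have hinj : Function.Injective fun l : ℤ => 2 * l + 1 := by
    intro a b hab
    simp only at hab
    omega
  have := hsum.comp_injective hinj
  refine this.congr ?_
  intro l
  simp only [Function.comp]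
  rw [hodd]

/-- A Bohr neighbourhood of `0` contains arbitrarily long progressions `q, 2q, ..., mq`. -/
theorem bohr_progression (l : List UnitAddCircle) {η : ℝ} (hη : 0 < η) (m : ℕ) :
    ∃ q : ℤ, q ≠ 0 ∧ ∀ k : ℕ, 1 ≤ k → k ≤ m → ∀ a ∈ l, ‖(q * k : ℤ) • a‖ < η := by
  classical
  set x : ℕ → (Fin l.length → UnitAddCircle) := fun n i => n • l.get i with hx
  obtain ⟨y, -, φ, hφ, hlim⟩ := isCompact_univ.tendsto_subseq (x := x) fun n => Set.mem_univ _
  have hcauchy := hlim.cauchySeq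
  rw [Metric.cauchySeq_iff] at hcauchy
  have hm : (0 : ℝ) < η / (m + 1) := by positivity
  obtain ⟨N, hN⟩ := hcauchy (η / (m + 1)) hm
  have h1 := hN (N + 1) (by omega) N le_rfl
  have hlt : φ N < φ (N + 1) := hφ (Nat.lt_succ_self N)
  refine ⟨(φ (N + 1) : ℤ) - φ N, by omega, ?_⟩
  intro k hk1 hkm a ha
  obtain ⟨i, hi, rfl⟩ := List.getElem_of_mem ha
  have h2 : dist (x (φ (N + 1)) ⟨i, hi⟩) (x (φ N) ⟨i, hi⟩) < η / (m + 1) :=
    lt_of_le_of_lt (dist_le_pi_dist _ _ _) h1
  have h3 : ‖((φ (N + 1) : ℤ) - φ N) • l[i]‖ < η / (m + 1) := by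
    rw [dist_eq_norm] at h2
    have e : ((φ (N + 1) : ℤ) - φ N) • l[i] = x (φ (N + 1)) ⟨i, hi⟩ - x (φ N) ⟨i, hi⟩ := by
      simp only [hx, List.get_eq_getElem]
      rw [sub_smul, natCast_zsmul, natCast_zsmul]
    rw [e]
    exact h2
  have h4 : (((φ (N + 1) : ℤ) - φ N) * k : ℤ) • l[i] = k • (((φ (N + 1) : ℤ) - φ N) • l[i]) := by
    rw [mul_comm, mul_smul, natCast_zsmul]
  rw [h4]
  have hk' : (k : ℝ) ≤ m + 1 := by exact_mod_cast (by omega : k ≤ m + 1)
  have hk0 : (0 : ℝ) < k := by exact_mod_cast hk1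
  calc ‖k • (((φ (N + 1) : ℤ) - φ N) • l[i])‖ ≤ k * ‖((φ (N + 1) : ℤ) - φ N) • l[i]‖ :=
        norm_nsmul_le
    _ < k * (η / (m + 1)) := mul_lt_mul_of_pos_left h3 hk0
    _ ≤ (m + 1) * (η / (m + 1)) := mul_le_mul_of_nonneg_right hk' hm.le
    _ = η := by field_simp

/-- Automatic continuity of translation-invariant linear forms on `C_E(𝕋)`. -/
theorem result :
    (∀ E : Set ℤ, (∀ m : ℕ, ∃ q : ℤ, q ≠ 0 ∧ ∀ k : ℕ, 1 ≤ k → k ≤ m → q * k ∈ E) →
      ¬ AutoCont E) ∧
    (∀ (E : Set ℤ) (l : List UnitAddCircle) (η : ℝ), 0 < η →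
      (∀ k : ℤ, k ≠ 0 → (∀ a ∈ l, ‖k • a‖ < η) → k ∈ E) → ¬ AutoCont E) ∧
    (∀ (E : Set ℤ) (l : List UnitAddCircle) (η : ℝ), 0 < η →
      IsSidon {k | k ∈ E ∧ ∀ a ∈ l, ‖k • a‖ < η} → AutoCont E) ∧
    (∀ (P S : Set ℤ) (q : ℕ), 1 ≤ q → (∀ k : ℤ, k ∈ P ↔ k + q ∈ P) → IsSidon S →
      (AutoCont (P ∪ S) ↔ (0 : ℤ) ∉ P)) ∧
    ¬ AutoCont Set.univ ∧
    AutoCont {k : ℤ | Odd k} ∧ ¬ IsSidon {k : ℤ | Odd k} := by
  have huniv : ¬ AutoCont Set.univ := not_autoCont fun m => ⟨1, one_ne_zero, fun k _ _ => trivial⟩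
  refine ⟨fun E hE => not_autoCont hE, ?_, autoCont_bohr, classification, huniv, ?_, ?_⟩
  · intro E l η hη hE
    apply not_autoCont
    intro m
    obtain ⟨q, hq, h⟩ := bohr_progression l hη m
    exact ⟨q, hq, fun k h1 h2 => hE _ (mul_ne_zero hq (by omega)) (h k h1 h2)⟩
  · apply autoCont_of_sidon _ 2 (by norm_num)
    apply isSidon_mono _ isSidon_empty
    rintro k ⟨hk, n, hn⟩
    exfalso
    obtain ⟨m, hm⟩ := hk
    push_cast at hn
    omega
  · intro h
    apply huniv
    apply autoCont_of_sidon _ 1 le_rfl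
    exact isSidon_mono (fun k _ => trivial) (sidon_univ_of_odd h)

end

end Pool.Agent.Results.MP_eb9c50_an.BohrSidon
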